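import Pool.Agent.helper35.BQ.Spec
import Pool.Agent.helper30.DC.IRT

/-!
# Row bq:OVB
-/

set_option autoImplicit false

namespace Pool.Agent.BQ

open Pool.Agent.helper58.DC Pool.Agent.DI Pool.Agent.DR Pool.Agent.NQ

theorem OVB_top {H : Type} [Group H] (χ : H → ℂ) (h : χ ∈ Irr H) : χ ∈ IrrOn (⊤ : Subgroup H) :=
  ⟨fun g hg => absurd (Subgroup.mem_top g) hg, Pool.Agent.helper30.DC.IRT _ _ Subgroup.topEquiv χ h⟩

theorem OVB_conj {E : Type} [Group E] (ψ θ : E → ℂ) (h : ∃ n ∈ (⊤ : Subgroup E), θ = funMap (MulAut.conj n) ψ) :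
    {ψ' : E → ℂ | ∃ n ∈ (⊤ : Subgroup E), ψ' = funMap (MulAut.conj n) θ} =
      {ψ' : E → ℂ | ∃ n ∈ (⊤ : Subgroup E), ψ' = funMap (MulAut.conj n) ψ} := by
  obtain ⟨m, _, hm⟩ := h
  have hmul : ∀ (a b : E) (φ : E → ℂ), funMap (MulAut.conj a) (funMap (MulAut.conj b) φ) =
      funMap (MulAut.conj (a * b)) φ := by
    intro a b φ
    funext g
    simp [funMap, mul_assoc]
  have hone : ∀ φ : E → ℂ, funMap (MulAut.conj (1 : E)) φ = φ := by
    intro φ
    funext g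
    simp [funMap]
  ext ψ'
  constructor
  · rintro ⟨n, _, hn⟩
    exact ⟨n * m, Subgroup.mem_top _, by rw [hn, hm, hmul]⟩
  · rintro ⟨n, _, hn⟩
    refine ⟨n * m⁻¹, Subgroup.mem_top _, ?_⟩
    rw [hm, hmul, mul_assoc, inv_mul_cancel, mul_one]
    exact hn

theorem OVB (hB0 : B0_stmt) (hB2 : B2_stmt) (hB9 : B9_stmt) (hB11 : B11_stmt) (hB13 : B13_stmt)
    (hC16 : C16_stmt) (hC1 : C1_stmt) : OVB_stmt := by
  classical
  intro G E A _ _ _ _ _ X p _ M hM hp hA φ hφ χ' hχ' χ hχ hind hne g hg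
  have _ := hC1
  have hcyc : CycQ X.inc.range := hB0.2.2.2 G E A X hA
  obtain ⟨ψ, hψ, hover⟩ := (hB9 E X.inc.range hcyc).1 φ hφ
  obtain ⟨h13a, h13b, _⟩ := hB13 G E p X.inc X.inc_injective ⊤
  have hmap : (⊤ : Subgroup G).map X.inc = X.inc.range := (MonoidHom.range_eq_map _).symm
  set θ : E → ℂ := ext0 X.inc χ' with hθ
  have hθI : θ ∈ IrrOn X.inc.range := by
    have h1 := (h13b χ').1 (OVB_top χ' hχ')
    rwa [hmap] at h1
  -- the set of the conjugates
  set S : Set (E → ℂ) := {ψ' : E → ℂ | ∃ n ∈ (⊤ : Subgroup E), ψ' = funMap (MulAut.conj n) ψ} with hS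
  have hSfin : S.Finite := by
    have h1 : S ⊆ Set.range fun n : E => funMap (MulAut.conj n) ψ := by
      rintro ψ' ⟨n, _, hn⟩
      exact ⟨n, hn.symm⟩
    exact (Set.finite_range _).subset h1
  have hnorm : X.inc.range.Normal := hcyc.1
  have hSI : ∀ ψ' ∈ S, ψ' ∈ IrrOn X.inc.range := by
    rintro ψ' ⟨n, _, hn⟩
    rw [hn]
    refine ⟨fun x hx => ?_, ?_⟩
    · show ψ ((MulAut.conj n)⁻¹ x) = 0
      apply hψ.1
      intro h1
      apply hx
      have h2 := hnorm.conj_mem _ h1 n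
      have h3 : n * ((MulAut.conj n)⁻¹ x) * n⁻¹ = x := by simp [mul_assoc]
      rwa [h3] at h2
    · have h4 := Pool.Agent.helper30.DC.IRT X.inc.range X.inc.range (MulAut.conjNormal n⁻¹) _ hψ.2
      have h5 : (fun h : X.inc.range => funMap (MulAut.conj n) ψ (h : E)) =
          fun h : X.inc.range => (fun k : X.inc.range => ψ (k : E)) (MulAut.conjNormal n⁻¹ h) := by
        funext h
        show ψ ((MulAut.conj n)⁻¹ (h : E)) = ψ ((MulAut.conjNormal n⁻¹ h : X.inc.range) : E)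
        congr 1
        rw [MulAut.conjNormal_apply]
        simp
      rw [h5]
      exact h4
  -- the inner product
  have hsum : ∑ᶠ g : G, φ (X.inc g) * χ' g⁻¹ =
      ∑ ψ' ∈ hSfin.toFinset, ∑ᶠ x : E, ψ' x * θ x⁻¹ := by
    have hf : Fintype G := Fintype.ofFinite G
    have hfE : Fintype E := Fintype.ofFinite E
    have h1 : ∀ ψ' ∈ hSfin.toFinset, ∑ᶠ x : E, ψ' x * θ x⁻¹ =
        ∑ g : G, ψ' (X.inc g) * χ' g⁻¹ := by
      intro ψ' hψ'
      have h3 : ∑ᶠ x : E, ψ' x * θ x⁻¹ = ∑ g : G, ψ' (X.inc g) * χ' g⁻¹ := by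
        rw [finsum_eq_sum_of_fintype]
        have h4 : ∑ g : G, ψ' (X.inc g) * χ' g⁻¹ = ∑ g : G, (fun x => ψ' x * θ x⁻¹) (X.inc g) := by
          refine Finset.sum_congr rfl fun g _ => ?_
          show ψ' (X.inc g) * χ' g⁻¹ = ψ' (X.inc g) * θ (X.inc g)⁻¹
          rw [← map_inv, hθ, (h13a χ').1]
        rw [h4, ← Finset.sum_image (s := Finset.univ) (g := X.inc) (f := fun x => ψ' x * θ x⁻¹)
          (fun a _ b _ hab => X.inc_injective hab)]
        symm
        refine Finset.sum_subset (Finset.subset_univ _) fun x _ hx => ?_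
        have h5 : x⁻¹ ∉ X.inc.range := by
          rintro ⟨a, ha⟩
          apply hx
          rw [Finset.mem_image]
          exact ⟨a⁻¹, Finset.mem_univ _, by rw [map_inv, ha, inv_inv]⟩
        have h6 : θ x⁻¹ = 0 := (h13a χ').2 _ h5
        rw [h6, mul_zero]
      exact h3
    rw [Finset.sum_congr rfl h1, Finset.sum_comm, finsum_eq_sum_of_fintype]
    refine Finset.sum_congr rfl fun g _ => ?_
    rw [← Finset.sum_mul]
    congr 1
    have h2 := hover (X.inc g) ⟨g, rfl⟩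
    rw [h2]
    exact finsum_mem_eq_finite_toFinset_sum _ hSfin
  have hθS : θ ∈ S := by
    by_contra hcon
    apply hne
    rw [hsum]
    refine Finset.sum_eq_zero fun ψ' hψ' => ?_
    rw [Set.Finite.mem_toFinset] at hψ'
    rw [((hB2 E X.inc.range).2 ψ' (hSI ψ' hψ')).2.2.2.2 θ hθI, if_neg]
    intro h
    exact hcon (h ▸ hψ')
  have hoverθ : OverP X.inc.range ⊤ φ θ := by
    intro x hx
    rw [hover x hx, OVB_conj ψ θ hθS]
  have h1 : omega φ g = omega θ g := by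
    refine hB11 E X.inc.range ⊤ hnorm φ (OVB_top φ hφ) θ ?_ ?_ g hg
    · rw [top_inf_eq]
      exact hθI
    · rw [top_inf_eq]
      exact hoverθ
  rw [h1]
  exact hC16 G E p M hM hp X.inc X.inc_injective χ' χ hind g

end Pool.Agent.BQ
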