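import Pool.Agent.helper35.BQ.Spec2

/-!
# Row bq:PCM
-/

set_option autoImplicit false

namespace Pool.Agent.BQ

open Pool.Agent.helper58.DC Pool.Agent.DI Pool.Agent.DR Pool.Agent.NQ

section
variable {T A : Type} [Group T] [Group A] (π : T →* A) (K L : Subgroup A)
  (hKL : ∀ v ∈ L, ∀ w ∈ K, v * w * v⁻¹ ∈ K)
include hKL

theorem PCM_mul {w w' : A} {t t' : T} (ht : π t ∈ L) (h : w * (π t)⁻¹ ∈ K) (h' : w' * (π t')⁻¹ ∈ K) :
    w * w' * (π (t * t'))⁻¹ ∈ K := by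
  have e : w * w' * (π (t * t'))⁻¹ = w * (π t)⁻¹ * (π t * (w' * (π t')⁻¹) * (π t)⁻¹) := by
    rw [map_mul, mul_inv_rev]
    group
  rw [e]
  exact K.mul_mem h (hKL _ ht _ h')

theorem PCM_inv {w : A} {t : T} (ht : π t ∈ L) (h : w * (π t)⁻¹ ∈ K) : w⁻¹ * (π t⁻¹)⁻¹ ∈ K := by
  have e : w⁻¹ * (π t⁻¹)⁻¹ = (π t)⁻¹ * (w * (π t)⁻¹)⁻¹ * ((π t)⁻¹)⁻¹ := by
    rw [map_inv]
    group
  rw [e]
  exact hKL _ (L.inv_mem ht) _ (K.inv_mem h)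

theorem PCM_pow {w : A} {t : T} (ht : π t ∈ L) (h : w * (π t)⁻¹ ∈ K) (n : ℕ) : w ^ n * (π (t ^ n))⁻¹ ∈ K := by
  induction n with
  | zero => simp
  | succ n ih =>
    rw [pow_succ', pow_succ']
    exact PCM_mul π K L hKL ht h ih

/-- the subgroup `K N` -/
def PCM_W (TN : Subgroup T) (hTN : ∀ t ∈ TN, π t ∈ L) : Subgroup A where
  carrier := {w | ∃ t ∈ TN, w * (π t)⁻¹ ∈ K}
  one_mem' := ⟨1, TN.one_mem, by simp⟩
  mul_mem' := by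
    rintro w w' ⟨t, ht, h⟩ ⟨t', ht', h'⟩
    exact ⟨t * t', TN.mul_mem ht ht', PCM_mul π K L hKL (hTN t ht) h h'⟩
  inv_mem' := by
    rintro w ⟨t, ht, h⟩
    exact ⟨t⁻¹, TN.inv_mem ht, PCM_inv π K L hKL (hTN t ht) h⟩

end

theorem PCM (hB0 : B0_stmt) : PCM_stmt := by
  intro p _ T A Γ _ _ _ _ _ _ π α K L K₀ hKle hKL hLπ hP hK
  have _ := hB0
  obtain ⟨W₀, hKW, _, hWn, hWp, s₀, _, hs₀⟩ := hP
  set TN : Subgroup T := L.comap π ⊓ W₀.comap α with hTN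
  have hTL : ∀ t ∈ TN, π t ∈ L := fun t ht => ht.1
  refine ⟨PCM_W π K L hKL TN hTL, ?_, ?_, ?_, ?_, ?_⟩
  · intro w hw
    exact ⟨1, TN.one_mem, by simpa using hw⟩
  · rintro w ⟨t, ht, h⟩
    have h1 := L.mul_mem (hKle h) (hTL t ht)
    rwa [inv_mul_cancel_right] at h1
  · rintro v hv w ⟨t, ht, h⟩
    obtain ⟨t', rfl⟩ := hLπ hv
    refine ⟨t' * t * t'⁻¹, ⟨?_, ?_⟩, ?_⟩
    · show π (t' * t * t'⁻¹) ∈ L
      rw [map_mul, map_mul, map_inv]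
      exact L.mul_mem (L.mul_mem hv (hTL t ht)) (L.inv_mem hv)
    · show α (t' * t * t'⁻¹) ∈ W₀
      rw [map_mul, map_mul, map_inv]
      exact hWn _ (Subgroup.mem_top _) _ ht.2
    · have e : π t' * w * (π t')⁻¹ * (π (t' * t * t'⁻¹))⁻¹ = π t' * (w * (π t)⁻¹) * (π t')⁻¹ := by
        rw [map_mul, map_mul, map_inv]
        group
      rw [e]
      exact hKL _ hv _ h
  · rintro w ⟨t, ht, h⟩
    obtain ⟨k, hk⟩ := hWp (α t) ht.2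
    refine ⟨k, ?_⟩
    have h1 := PCM_pow π K L hKL (hTL t ht) h (p ^ k)
    have h2 : π (t ^ p ^ k) ∈ K := by
      refine hK _ ?_ ?_
      · rw [map_pow]
        exact L.pow_mem (hTL t ht) _
      · rw [map_pow]
        exact hk
    have h3 := K.mul_mem h1 h2
    rwa [inv_mul_cancel_right] at h3
  · -- the cyclic quotient
    have hnor : W₀.Normal := ⟨fun w hw v => hWn v (Subgroup.mem_top _) w hw⟩
    have hcyc : IsCyclic (Γ ⧸ W₀) := by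
      refine ⟨⟨QuotientGroup.mk s₀, fun x => ?_⟩⟩
      obtain ⟨v, rfl⟩ := QuotientGroup.mk_surjective x
      obtain ⟨i, hi⟩ := hs₀ v (Subgroup.mem_top _)
      refine Subgroup.mem_zpowers_iff.2 ⟨-i, ?_⟩
      have h1 : (QuotientGroup.mk s₀ : Γ ⧸ W₀) ^ (-i) = QuotientGroup.mk (s₀ ^ (-i)) := rfl
      rw [h1, QuotientGroup.eq, zpow_neg, inv_inv]
      exact hi
    let β : (L.comap π) →* (Γ ⧸ W₀) := (QuotientGroup.mk' W₀).comp (α.comp (L.comap π).subtype)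
    have hc2 : IsCyclic β.range := inferInstance
    obtain ⟨⟨g, hg⟩, hgen⟩ := hc2.exists_generator
    obtain ⟨t₀, rfl⟩ := hg
    refine ⟨π t₀, t₀.2, fun v hv => ?_⟩
    obtain ⟨t, rfl⟩ := hLπ hv
    obtain ⟨j, hj⟩ := Subgroup.mem_zpowers_iff.1 (hgen ⟨β ⟨t, hv⟩, ⟨⟨t, hv⟩, rfl⟩⟩)
    have hj' : β t₀ ^ j = β ⟨t, hv⟩ := congrArg Subtype.val hj
    have hj2 : (QuotientGroup.mk ((α t₀) ^ j) : Γ ⧸ W₀) = QuotientGroup.mk (α t) := hj'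
    rw [QuotientGroup.eq] at hj2
    refine ⟨-j, ⟨(t₀ : T) ^ (-j) * t, ⟨?_, ?_⟩, ?_⟩⟩
    · show π ((t₀ : T) ^ (-j) * t) ∈ L
      rw [map_mul, map_zpow]
      exact L.mul_mem (L.zpow_mem t₀.2 _) hv
    · show α ((t₀ : T) ^ (-j) * t) ∈ W₀
      rw [map_mul, map_zpow, zpow_neg]
      exact hj2
    · rw [map_mul, map_zpow, mul_inv_cancel]
      exact K.one_mem

end Pool.Agent.BQ
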